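import Pool.Agent.H.MP_f59e5e_pr.C

namespace Pool.Agent.Results.MP_f59e5e_pr.No
open MeasureTheory Filter Pool.Agent.H.MP_f59e5e_pr

theorem result : ∃ (Ω : Type) (_ : MeasurableSpace Ω) (P : Measure Ω) (_ : IsProbabilityMeasure P)
    (τ : ℤ × ℤ → Ω → Ω) (g : Ω → ℤ × ℤ → Bool → Bool → ℝ) (q : Bool → Bool → ℤ × ℤ),
    (∀ z, MeasurePreserving (τ z) P P) ∧ (∀ z z', τ (z + z') = τ z ∘ τ z') ∧
    (∀ F, MeasurableSet F → (∀ z, τ z '' F = F) → P F = 0 ∨ P F = 1) ∧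
    (∀ z i j, Measurable fun ω => g ω z i j) ∧ (∀ ω z i j, 0 ≤ g ω z i j ∧ g ω z i j ≤ 1) ∧
    (∀ ω z z' i j, g (τ z ω) z' i j = g ω (z + z') i j) ∧
    (∃ u : ℤ × ℤ, ∀ i j, 0 < (q i j).1 * u.1 + (q i j).2 * u.2) ∧
    ¬ ∀ᵐ ω ∂P, ∃ l, Tendsto (fun n => value (g ω) q 0 n) atTop (nhds l) :=
  ⟨Om, inferInstance, PP, inferInstance, tau, gg, qq, tau_mp, tau_add, tau_erg, gg_meas, gg_bd,
    gg_stat, ⟨(0, 1), fun i j => by simp [qq]⟩,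
    fun h => not_ae (h.mono fun _ a b => no_lim b a)⟩

end Pool.Agent.Results.MP_f59e5e_pr.No
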